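import Pool.Agent.TH847.BT.Uni2

/-! Primes in almost all reduced classes of every large modulus, in all intervals at once. -/

set_option autoImplicit false

namespace Pool.Agent.Results.MP_26a8c3_nt.AlmostAllClasses
open Finset Filter Pool.Agent.W301.SS Pool.Agent.TH847.LM Pool.Agent.TH847.BT

lemma num2 {A B φ y ε ε₁ : ℝ} (hA : 0 < A) (hAB : A < B) (hφ : 0 < φ) (hy : 0 < y) (hε : 0 < ε)
    (hε₁ : 0 < ε₁) (h1 : ε₁ ≤ ε) (hB : B ≤ (2 - ε) * A) :
    (4 + ε₁) * y / (φ * B) < (2 - ε / 2) * y / (φ * (B - A)) := by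
  have hB0 : 0 < B := by linarith
  have hd : 0 < B - A := by linarith
  have hε2 : ε < 1 := by
    by_contra hc
    push Not at hc
    have : (2 - ε) * A ≤ 1 * A := mul_le_mul_of_nonneg_right (by linarith) hA.le
    linarith
  have key : (4 + ε₁) * (B - A) < (2 - ε / 2) * B := by
    have h2 : (2 + ε₁ + ε / 2) * B ≤ (2 + ε₁ + ε / 2) * ((2 - ε) * A) :=
      mul_le_mul_of_nonneg_left hB (by linarith)
    have h3 : (2 + ε₁ + ε / 2) * (2 - ε) < 4 + ε₁ := by nlinarith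
    have h4 : (2 + ε₁ + ε / 2) * ((2 - ε) * A) < (4 + ε₁) * A := by
      calc (2 + ε₁ + ε / 2) * ((2 - ε) * A) = ((2 + ε₁ + ε / 2) * (2 - ε)) * A := by ring
        _ < _ := mul_lt_mul_of_pos_right h3 hA
    linarith
  rw [div_lt_div_iff₀ (by positivity) (by positivity)]
  have h5 := mul_lt_mul_of_pos_right key (mul_pos hy hφ)
  linarith

theorem result : ∀ ε : ℝ, 0 < ε → ∃ κ : ℝ, 0 < κ ∧ ∃ k₀ : ℕ, ∀ k : ℕ, k₀ ≤ k →
    ∀ W : ℝ, 2 ≤ W → W ≤ (k : ℝ) ^ κ → ∀ x₀ : ℝ,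
    ∃ E : Finset ℕ, (E.card : ℝ) ≤ Nat.totient k / W ∧
      ∀ l : ℕ, l < k → l.Coprime k → l ∉ E →
      ∀ x y : ℝ, k * (W * Real.log k) ^ 120 ≤ y → y ≤ x → |x - x₀| ≤ W * y →
        (({p : ℕ | p.Prime ∧ p ≡ l [MOD k] ∧ x - y < p ∧ (p : ℝ) ≤ x}.ncard : ℝ) ≤
          (4 + ε) * y / (Nat.totient k * Real.log y)) ∧
        (y ≤ (k : ℝ) ^ (2 - ε) →
          ({p : ℕ | p.Prime ∧ p ≡ l [MOD k] ∧ x - y < p ∧ (p : ℝ) ≤ x}.ncard : ℝ) <
          (2 - ε / 2) * y / (Nat.totient k * Real.log (y / k))) := by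
  intro ε hε
  obtain ⟨e, he⟩ : ∃ e : ℝ, e = min ε 1 := ⟨_, rfl⟩
  have he0 : 0 < e := by rw [he]; exact lt_min hε one_pos
  have he1 : e ≤ 1 := by rw [he]; exact min_le_right _ _
  have heε : e ≤ ε := by rw [he]; exact min_le_left _ _
  refine ⟨e / 6400, by positivity, ?_⟩
  have hev := (uniG e he0 he1).and
    (((ev_log 1 1 (e / 6400) (by positivity)).and (phi_ev (1 / 8) (by norm_num))).and
      ((ev_L 1).and (eventually_ge_atTop 3)))
  rw [eventually_atTop] at hev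
  obtain ⟨k₀, hk₀⟩ := hev
  refine ⟨k₀, fun k hk W hW hWk x₀ => ?_⟩
  obtain ⟨huni, ⟨⟨hlogk, hphi⟩, ⟨hL1, hk3⟩⟩⟩ := hk₀ k hk
  have hkr : (3 : ℝ) ≤ k := by exact_mod_cast hk3
  have hk0 : (0 : ℝ) < k := by linarith
  have hk1 : (1 : ℝ) ≤ k := by linarith
  have hφ0 : (0 : ℝ) < Nat.totient k := by exact_mod_cast Nat.totient_pos.2 (by omega)
  obtain ⟨L, hL⟩ : ∃ L : ℝ, L = Real.log k := ⟨_, rfl⟩
  rw [← hL] at hlogk hphi hL1 huni ⊢
  have hL0 : 0 < L := by linarith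
  have hW0 : 0 < W := by linarith
  rw [pow_one, one_mul] at hlogk
  obtain ⟨W', hW'⟩ : ∃ W' : ℝ, W' = W * L := ⟨_, rfl⟩
  have hWW' : W ≤ W' := by rw [hW']; exact m3 (by linarith) hW0.le
  have hW'2 : 2 ≤ W' := hW.trans hWW'
  have hW'0 : 0 < W' := by linarith
  have hW'k : W' ≤ (k : ℝ) ^ (e / 3200) := by
    rw [hW']
    calc W * L ≤ (k : ℝ) ^ (e / 6400) * (k : ℝ) ^ (e / 6400) := by gcongr
      _ = _ := by rw [← Real.rpow_add hk0]; congr 1; ring
  have hkφ : (k : ℝ) / W' ≤ Nat.totient k / W := by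
    rw [hW', div_le_div_iff₀ (by positivity) hW0]
    have h1 : (k : ℝ) ≤ Nat.totient k * L := by
      rw [div_le_iff₀ hφ0] at hphi
      have := mul_pos hφ0 hL0
      linarith
    calc (k : ℝ) * W ≤ (Nat.totient k * L) * W := mul_le_mul_of_nonneg_right h1 hW0.le
      _ = _ := by ring
  have hWL1 : 1 ≤ W * L := m2 (by linarith) (by linarith)
  have hpow : (W' * L) ^ 60 ≤ (W * L) ^ 120 := by
    have h1 : W' * L ≤ (W * L) ^ 2 := by
      rw [hW']
      have : W * L * L ≤ W * L * (W * L) := by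
        apply mul_le_mul_of_nonneg_left _ (by positivity)
        exact m1 (by linarith) hL0.le
      calc W * L * L ≤ W * L * (W * L) := this
        _ = _ := by ring
    calc (W' * L) ^ 60 ≤ ((W * L) ^ 2) ^ 60 := pow_le_pow_left₀ (by positivity) h1 60
      _ = (W * L) ^ 120 := by rw [← pow_mul]
  obtain ⟨E, _, hE2, hE3⟩ := huni W' hW'2 hW'k x₀
  refine ⟨E, hE2.trans hkφ, ?_⟩
  intro l hl _ hlE x y hy hyx hxW
  have hky : (k : ℝ) < y := by
    have h1 : (2 : ℝ) ≤ (W * L) ^ 120 := by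
      calc (2 : ℝ) ≤ W * L := by rw [← hW']; exact hW'2
        _ = (W * L) ^ 1 := (pow_one _).symm
        _ ≤ (W * L) ^ 120 := pow_le_pow_right₀ hWL1 (by norm_num)
    have h3 := mul_le_mul_of_nonneg_left h1 hk0.le
    linarith
  have hy0 : 0 < y := by linarith
  have hly : 0 < Real.log y := Real.log_pos (by linarith)
  have h := hE3 l hl hlE x y ((mul_le_mul_of_nonneg_left hpow hk0.le).trans hy) hyx
    (hxW.trans (mul_le_mul_of_nonneg_right hWW' hy0.le))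
  refine ⟨h.trans (by gcongr), ?_⟩
  intro hy2
  refine lt_of_le_of_lt h ?_
  have hAB : L < Real.log y := by rw [hL]; exact Real.log_lt_log hk0 hky
  have hB : Real.log y ≤ (2 - ε) * L := by
    have := Real.log_le_log hy0 hy2
    rwa [Real.log_rpow hk0, ← hL] at this
  have := num2 hL0 hAB hφ0 hy0 hε he0 heε hB
  rwa [Real.log_div hy0.ne' hk0.ne', ← hL]

end Pool.Agent.Results.MP_26a8c3_nt.AlmostAllClasses
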