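import Pool.Agent.TH872.GQ.BT
import Pool.Agent.TH872.GQ.Fam

/-!
# The Brun–Titchmarsh inequality with the constant `1` for almost all classes to sparse moduli

Definitions used (in `Pool.Agent.TH872.GQ`): `S b E k`: the integers below `b ^ k` whose `i`-th digit in base `b`
lies in `E i`, for all `i < k`; `value a β c n = c + a n ^ 2 + β n`.
-/

set_option autoImplicit false

namespace Pool.Agent.Results.MP_26a8c3_nt.SparseModuli

open Finset Pool.Agent.TH872.GQ

/-- `N(x, y; q, l)` for `0 ≤ y ≤ x` and `0 ≤ l < q`: the number of the primes `p` with `x - y < p ≤ x` and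
`p ≡ l (mod q)` -/
noncomputable def cnt (x y : ℝ) (q l : ℕ) : ℕ :=
  ((Ioc ⌊x - y⌋₊ ⌊x⌋₊).filter (fun p => p.Prime ∧ p % q = l)).card

open Classical in
/-- For all `l` with `0 ≤ l < q` and `gcd(l, q) = 1`, except for at most `φ(q) / (log q) ^ U` of them:
`N(x, y; q, l) ≤ (1 + ε) y / (φ(q) log q)` for ALL real `x`, `y` with `q (log q) ^ B ≤ y ≤ x ≤ q (log q) ^ (B + D)`. -/
def Holds (ε : ℝ) (U B D q : ℕ) : Prop :=
  (((range q).filter (fun l => Nat.Coprime l q ∧ ∃ x y : ℝ, q * Real.log q ^ B ≤ y ∧ y ≤ x ∧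
    x ≤ q * Real.log q ^ (B + D) ∧ (1 + ε) * (y / (Nat.totient q * Real.log q)) < cnt x y q l)).card : ℝ) ≤
    Nat.totient q / Real.log q ^ U

/-- The additive energy of order `h` of a finite family of integers `v i`: the number of solutions of
`v (a 1) + ... + v (a h) = v (b 1) + ... + v (b h)`. -/
noncomputable def energy (h : ℕ) {ι : Type} [Fintype ι] (v : ι → ℤ) : ℕ :=
  Nat.card {q : (Fin h → ι) × (Fin h → ι) // ∑ j, v (q.1 j) = ∑ j, v (q.2 j)}

open Classical in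
lemma families (ε : ℝ) (hε : 0 < ε) (hε1 : ε ≤ 1) (B D U V : ℕ) (hB : 2 * D + U + 2 ≤ B) (h C κ : ℕ) :
    ∃ N₀ : ℕ, ∀ N : ℕ, N₀ ≤ N → ∀ (ι : Type) [Fintype ι] (v : ι → ℤ), (∀ i, |v i| ≤ N) →
      (energy h v : ℝ) * N ≤ Real.log N ^ C * (Fintype.card ι : ℝ) ^ (2 * h) →
      ((univ.filter (fun i => 0 < v i ∧ (N : ℝ) ≤ v i * Real.log N ^ κ ∧ ¬ Holds ε U B D (v i).toNat)).card : ℝ) ≤
        Fintype.card ι / Real.log N ^ V := by
  obtain ⟨Q₀, hdet⟩ := Pool.Agent.TH872.GQ.BT.det ε hε hε1 B D U hB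
  obtain ⟨κ', hκ'⟩ : ∃ κ', κ' = max κ (B + D + 1) := ⟨_, rfl⟩
  obtain ⟨n1, h1⟩ := Pool.Agent.Results.MP_5d318d_nt.ThinFamilyModuli.first h C κ' V 1 one_pos le_rfl
  obtain ⟨n2, h2⟩ := Pool.Agent.H373R2.T7.ev_L' 1
  obtain ⟨n3, h3⟩ := Pool.Agent.H373R2.T7.ev_log' κ 1
  refine ⟨n1 + n2 + n3 + (Q₀ + 2) ^ 2, fun N hN ι _ v hv hE => ?_⟩
  have hL := h2 N (by omega)
  have hs := h3 N (by omega)
  rw [one_mul] at hs
  refine le_trans ?_ (h1 N (by omega) ι v hv hE)
  unfold Pool.Agent.Results.MP_5d318d_nt.ThinFamilyModuli.exceptions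
  apply Nat.cast_le.2
  apply card_le_card
  intro i hi
  rw [mem_filter] at hi ⊢
  obtain ⟨_, hi1, hi2, hi3⟩ := hi
  refine ⟨mem_univ _, hi1, ?_, fun hgood => hi3 ?_⟩
  · refine hi2.trans ?_
    apply mul_le_mul_of_nonneg_left _ (by exact_mod_cast hi1.le)
    exact pow_le_pow_right₀ hL (by rw [hκ']; exact le_max_left _ _)
  · obtain ⟨q, hq⟩ : ∃ q : ℕ, q = (v i).toNat := ⟨_, rfl⟩
    have hqv : ((q : ℕ) : ℤ) = v i := by rw [hq]; exact Int.toNat_of_nonneg hi1.le
    have hqr : (q : ℝ) = (v i : ℝ) := by exact_mod_cast hqv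
    rw [← hqr] at hi2
    rw [← hq] at hgood ⊢
    have hN4 : (Q₀ + 2) ^ 2 ≤ N := by omega
    have hN0 : (0 : ℝ) < N := by
      have : 0 < N := by
        have : 0 < (Q₀ + 2) ^ 2 := by positivity
        omega
      exact_mod_cast this
    have hqs : Real.sqrt N ≤ q := by
      have e1 : Real.sqrt N * Real.sqrt N = N := Real.mul_self_sqrt hN0.le
      have e2 : 0 < Real.sqrt N := Real.sqrt_pos.2 hN0
      have e3 : (N : ℝ) ≤ q * Real.sqrt N := hi2.trans (mul_le_mul_of_nonneg_left hs (Nat.cast_nonneg _))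
      have e4 : Real.sqrt N * Real.sqrt N ≤ q * Real.sqrt N := by
        rw [e1]
        exact e3
      exact le_of_mul_le_mul_right e4 e2
    have hQ2 : Q₀ + 2 ≤ q := by
      have e1 : ((Q₀ + 2 : ℕ) : ℝ) ≤ Real.sqrt N := by
        apply Real.le_sqrt_of_sq_le
        exact_mod_cast hN4
      exact_mod_cast e1.trans hqs
    have hqN : q ≤ N := by
      have := (abs_le.1 (hv i)).2
      rw [← hqv] at this
      exact_mod_cast this
    have hq0 : (0 : ℝ) < q := by exact_mod_cast (by omega : 0 < q)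
    have hlog : Real.log q ≤ Real.log N := Real.log_le_log hq0 (by exact_mod_cast hqN)
    have hlog0 : 0 ≤ Real.log q := Real.log_natCast_nonneg _
    refine hdet q (by omega) fun x hx1 hx2 => ?_
    have e1 := hgood x hx1 (hx2.trans (by
      apply mul_le_mul_of_nonneg_left _ hq0.le
      calc Real.log q ^ (B + D + 1) ≤ Real.log N ^ (B + D + 1) := pow_le_pow_left₀ hlog0 hlog _
        _ ≤ Real.log N ^ κ' := pow_le_pow_right₀ hL (by rw [hκ']; exact le_max_right _ _)))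
    have e2 := (abs_le.1 e1).2
    linarith

open Classical in
/-- Let `0 < ε ≤ 1`, `U`, `V`, `D` and `B ≥ 2 D + U + 2` be fixed.

(1) Let `h`, `C` and `κ` be fixed and let `N` be large. Let `v i`, `i ∈ ι`, be an arbitrary finite family of integers in
`[-N, N]` whose additive energy of order `h` is at most `log ^ C N` times `(#ι) ^ (2 h) / N` (up to the power of the
logarithm this is the least possible energy, and the family may have as few as `N ^ (1 / h)` members). Then for all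
members `q = v i > 0` with `q ≥ N / log ^ κ N`, except for at most `#ι / log ^ V N` of them, the following holds: for all
reduced classes `l` modulo `q`, except for at most `φ(q) / (log q) ^ U` of them,
`N(x, y; q, l) ≤ (1 + ε) y / (φ(q) log q)` for ALL real `x`, `y` with `q (log q) ^ B ≤ y ≤ x ≤ q (log q) ^ (B + D)`.

(2) Let `b ≥ 2`, `F` and integers `a ≠ 0` and `β` be fixed and let `k` be large. Let `E 0, …, E (k - 1)` be arbitrary sets
of at least two digits in base `b`, let `S` be the set of the integers below `b ^ k` whose `i`-th digit lies in `E i`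
for all `i < k`, and let `c` be an arbitrary integer with `|c| ≤ F b ^ (2 k)`. Then for all `n ∈ S`, except for at most
`#S / k ^ V` of them, the number `q = c + a n ^ 2 + β n` is `≤ 0` or a modulus with the same property. -/
theorem result (ε : ℝ) (hε : 0 < ε) (hε1 : ε ≤ 1) (B D U V : ℕ) (hB : 2 * D + U + 2 ≤ B) :
    (∀ h C κ : ℕ, ∃ N₀ : ℕ, ∀ N : ℕ, N₀ ≤ N → ∀ (ι : Type) [Fintype ι] (v : ι → ℤ), (∀ i, |v i| ≤ N) →
      (energy h v : ℝ) * N ≤ Real.log N ^ C * (Fintype.card ι : ℝ) ^ (2 * h) →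
      ((univ.filter (fun i => 0 < v i ∧ (N : ℝ) ≤ v i * Real.log N ^ κ ∧ ¬ Holds ε U B D (v i).toNat)).card : ℝ) ≤
        Fintype.card ι / Real.log N ^ V) ∧
    (∀ (b F : ℕ) (a β : ℤ), 2 ≤ b → a ≠ 0 → ∃ k₀ : ℕ, ∀ k : ℕ, k₀ ≤ k →
      ∀ E : ℕ → Finset ℕ, (∀ i < k, E i ⊆ range b ∧ 2 ≤ (E i).card) → ∀ c : ℤ, |c| ≤ F * (b : ℤ) ^ (2 * k) →
      (((S b E k).filter (fun n => 0 < value a β c n ∧ ¬ Holds ε U B D (value a β c n).toNat)).card : ℝ) ≤
        (S b E k).card / (k : ℝ) ^ V) := by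
  refine ⟨fun h C κ => families ε hε hε1 B D U V hB h C κ, fun b F a β hb ha => ?_⟩
  obtain ⟨h, B', k1, hh, hB1, hBB, hfam⟩ := fam b hb a β ha F
  obtain ⟨W, k2, hsm⟩ := small b hb a β ha B' V
  obtain ⟨n3, h3⟩ := families ε hε hε1 B D U (V + 1) hB h 1 W
  refine ⟨k1 + k2 + n3 + 2, fun k hk E hE c hc => ?_⟩
  obtain ⟨f1, f2, f3, f4⟩ := hfam k (by omega) E hE c hc
  obtain ⟨N, hN⟩ : ∃ N : ℕ, N = B' * b ^ (2 * k) := ⟨_, rfl⟩
  have hkN : k ≤ N := by
    rw [hN]
    calc k ≤ 2 * k := by omega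
      _ ≤ b ^ (2 * k) := (Nat.lt_pow_self (by omega)).le
      _ ≤ _ := Nat.le_mul_of_pos_left _ (by omega)
  have r1 := hsm W le_rfl k (by omega) E hE c (fun n => 0 < value a β c n ∧
    ((value a β c n : ℤ) : ℝ) * Real.log ((B' * b ^ (2 * k) : ℕ) : ℝ) ^ W < ((B' * b ^ (2 * k) : ℕ) : ℝ)) (fun n hn => hn)
  rw [← hN] at f1 f2 f3 r1
  have hfc : Fintype.card {n // n ∈ S b E k} = (S b E k).card := Fintype.card_coe _
  have r2 := h3 N (by omega) {n // n ∈ S b E k} (fun i => value a β c i.1) f1 f2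
  rw [hfc] at r2
  have r3 := r2.trans (pow_of_log _ _ (Nat.cast_nonneg _) k (V + 1) (by omega) f3)
  have r4 := conv (S b E k) (fun n => 0 < value a β c n ∧ (N : ℝ) ≤ ((value a β c n : ℤ) : ℝ) * Real.log N ^ W ∧
    ¬ Holds ε U B D (value a β c n).toNat) _ (fun i hi => hi) _ r3
  refine add_small (S b E k) _ _ _ k V (by omega) ?_ r1 r4
  intro n _ hn
  rcases lt_or_ge (((value a β c n : ℤ) : ℝ) * Real.log N ^ W) N with h5 | h5
  · exact Or.inl ⟨hn.1, h5⟩
  · exact Or.inr ⟨hn.1, h5, hn.2⟩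

end Pool.Agent.Results.MP_26a8c3_nt.SparseModuli
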